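import Pool.Agent.H45.XR.Defs

/-!
# Project XR, module A1: the radial function of a planar convex body
-/

set_option autoImplicit false

open MeasureTheory Set Filter Topology
open scoped Real ENNReal NNReal

namespace Pool.Agent.H45.XR

lemma Body.nhds {C : Set ℂ} (hC : Body C) : C ∈ 𝓝 (0 : ℂ) := mem_interior_iff_mem_nhds.1 hC.zero

lemma Body.zero_mem {C : Set ℂ} (hC : Body C) : (0 : ℂ) ∈ C := interior_subset hC.zero

lemma gauge_e_pos {C : Set ℂ} (hC : Body C) (θ : ℝ) : 0 < gauge C (e θ) :=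
  (gauge_pos (absorbent_nhds_zero hC.nhds)
    (NormedSpace.isVonNBounded_of_isBounded ℝ hC.cpt.isBounded)).2 (e_ne_zero θ)

lemma gauge_mul_e (C : Set ℂ) (θ : ℝ) {s : ℝ} (hs : 0 ≤ s) :
    gauge C ((s : ℂ) * e θ) = s * gauge C (e θ) := by
  have h := gauge_smul_of_nonneg (s := C) hs (e θ)
  rw [Complex.real_smul, smul_eq_mul] at h
  exact h

theorem rad_pos {C : Set ℂ} (hC : Body C) (θ : ℝ) : 0 < rad C θ := inv_pos.2 (gauge_e_pos hC θ)

theorem rad_periodic (C : Set ℂ) (θ : ℝ) : rad C (θ + 2 * π) = rad C θ := by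
  unfold rad
  rw [e_add_two_pi]

lemma e_dist_le (a b : ℝ) : dist (e a) (e b) ≤ dist a b := by
  have h1 : e a - e b = e b * (e (a - b) - 1) := by
    rw [mul_sub, ← e_add, mul_one]
    congr 2
    ring
  have h2 := @Real.norm_exp_I_mul_ofReal_sub_one_le (a - b)
  rw [dist_eq_norm, dist_eq_norm, h1, norm_mul, norm_e, one_mul]
  unfold e
  rw [mul_comm _ Complex.I]
  exact h2

lemma e_lipschitz : LipschitzWith 1 e :=
  LipschitzWith.of_dist_le_mul fun a b => by simpa using e_dist_le a b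

/-- two-sided bounds for the gauge on the unit circle -/
lemma gauge_e_ge {C : Set ℂ} (hC : Body C) : ∃ c : ℝ, 0 < c ∧ ∀ θ, c ≤ gauge C (e θ) := by
  obtain ⟨R, hR⟩ := hC.cpt.isBounded.subset_closedBall (0 : ℂ)
  have hR1 : C ⊆ Metric.closedBall 0 (max R 1) :=
    hR.trans (Metric.closedBall_subset_closedBall (le_max_left _ _))
  have h1 : (0 : ℝ) < max R 1 := lt_max_of_lt_right one_pos
  refine ⟨1 / max R 1, by positivity, fun θ => ?_⟩
  have h := le_gauge_of_subset_closedBall (x := e θ) (absorbent_nhds_zero hC.nhds) h1.le hR1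
  rwa [norm_e] at h

lemma rad_le {C : Set ℂ} (hC : Body C) : ∃ R : ℝ, 0 < R ∧ ∀ θ, rad C θ ≤ R := by
  obtain ⟨c, hc, h⟩ := gauge_e_ge hC
  exact ⟨c⁻¹, by positivity, fun θ => inv_anti₀ hc (h θ)⟩

theorem rad_lipschitz {C : Set ℂ} (hC : Body C) : ∃ L : NNReal, LipschitzWith L (rad C) := by
  obtain ⟨K, hK⟩ := hC.conv.lipschitz_gauge hC.nhds
  obtain ⟨R, hR, hRle⟩ := rad_le hC
  refine ⟨R.toNNReal * R.toNNReal * K, LipschitzWith.of_dist_le_mul fun a b => ?_⟩
  have ha := gauge_e_pos hC a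
  have hb := gauge_e_pos hC b
  have h1 : rad C a - rad C b = rad C a * rad C b * (gauge C (e b) - gauge C (e a)) := by
    unfold rad
    field_simp
  have h2 : |gauge C (e b) - gauge C (e a)| ≤ K * |a - b| := by
    have h3 := (hK.comp e_lipschitz).dist_le_mul b a
    rw [Real.dist_eq, Real.dist_eq, abs_sub_comm b a] at h3
    simpa using h3
  have ha' := (rad_pos hC a).le
  have hb' := (rad_pos hC b).le
  rw [Real.dist_eq, h1, abs_mul, abs_mul, abs_of_nonneg ha', abs_of_nonneg hb', Real.dist_eq]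
  push_cast
  calc rad C a * rad C b * |gauge C (e b) - gauge C (e a)|
      ≤ R * R * (K * |a - b|) :=
        mul_le_mul (mul_le_mul (hRle a) (hRle b) hb' hR.le) h2 (abs_nonneg _) (by positivity)
    _ = _ := by rw [Real.coe_toNNReal _ hR.le]; ring

theorem mem_iff_le_rad {C : Set ℂ} (hC : Body C) (θ : ℝ) {s : ℝ} (hs : 0 ≤ s) :
    (s : ℂ) * e θ ∈ C ↔ s ≤ rad C θ := by
  have h := gauge_le_one_iff_mem_closure (x := (s : ℂ) * e θ) hC.conv hC.nhds
  rw [hC.cpt.isClosed.closure_eq, gauge_mul_e C θ hs] at h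
  rw [← h]
  unfold rad
  rw [← one_div, le_div_iff₀ (gauge_e_pos hC θ)]

theorem mem_interior_iff_lt_rad {C : Set ℂ} (hC : Body C) (θ : ℝ) {s : ℝ} (hs : 0 ≤ s) :
    (s : ℂ) * e θ ∈ interior C ↔ s < rad C θ := by
  have h := gauge_lt_one_iff_mem_interior (x := (s : ℂ) * e θ) hC.conv hC.nhds
  rw [gauge_mul_e C θ hs] at h
  rw [← h]
  unfold rad
  rw [← one_div, lt_div_iff₀ (gauge_e_pos hC θ)]

theorem pt_mem {C : Set ℂ} (hC : Body C) (θ : ℝ) : pt C θ ∈ C :=
  (mem_iff_le_rad hC θ (rad_pos hC θ).le).2 le_rfl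

theorem pt_notMem_interior {C : Set ℂ} (hC : Body C) (θ : ℝ) : pt C θ ∉ interior C := fun h =>
  lt_irrefl _ ((mem_interior_iff_lt_rad hC θ (rad_pos hC θ).le).1 h)

theorem pt_periodic (C : Set ℂ) (θ : ℝ) : pt C (θ + 2 * π) = pt C θ := by
  unfold pt
  rw [rad_periodic, e_add_two_pi]

theorem pt_lipschitz {C : Set ℂ} (hC : Body C) : ∃ L : NNReal, LipschitzWith L (pt C) := by
  obtain ⟨K, hK⟩ := rad_lipschitz hC
  obtain ⟨R, hR, hRle⟩ := rad_le hC
  refine ⟨K + R.toNNReal, LipschitzWith.of_dist_le_mul fun a b => ?_⟩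
  have h1 : pt C a - pt C b = ((rad C a - rad C b : ℝ) : ℂ) * e a + (rad C b : ℂ) * (e a - e b) := by
    unfold pt
    push_cast
    ring
  have h2 := hK.dist_le_mul a b
  have h3 := e_dist_le a b
  rw [Real.dist_eq] at h2
  rw [dist_eq_norm] at h3
  rw [dist_eq_norm, h1]
  refine (norm_add_le _ _).trans ?_
  rw [norm_mul, norm_mul, norm_e, Complex.norm_real, Complex.norm_real, Real.norm_eq_abs,
    Real.norm_eq_abs, abs_of_pos (rad_pos hC b), mul_one]
  push_cast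
  have h4 : rad C b * ‖e a - e b‖ ≤ R * dist a b :=
    mul_le_mul (hRle b) h3 (norm_nonneg _) hR.le
  rw [Real.coe_toNNReal _ hR.le]
  linarith

theorem exists_pt {C : Set ℂ} (hC : Body C) {z : ℂ} (hz : z ∈ C) (hz' : z ∉ interior C) (a : ℝ) :
    ∃ θ ∈ Ico a (a + 2 * π), pt C θ = z := by
  have hz0 : z ≠ 0 := fun h => hz' (h ▸ hC.zero)
  have hpolar : z = (‖z‖ : ℂ) * e (toIcoMod Real.two_pi_pos a z.arg) := by
    have h1 : e (toIcoMod Real.two_pi_pos a z.arg) = e z.arg := by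
      have h2 := toIcoMod_add_toIcoDiv_zsmul Real.two_pi_pos a z.arg
      have h3 : ∀ (k : ℤ) (x : ℝ), e (x + k • (2 * π)) = e x := by
        intro k x
        unfold e
        rw [Complex.exp_eq_exp_iff_exists_int]
        exact ⟨k, by push_cast [zsmul_eq_mul]; ring⟩
      conv_rhs => rw [← h2]
      rw [h3]
    rw [h1]
    exact (Complex.norm_mul_exp_arg_mul_I z).symm
  refine ⟨toIcoMod Real.two_pi_pos a z.arg, toIcoMod_mem_Ico _ _ _, ?_⟩
  set θ := toIcoMod Real.two_pi_pos a z.arg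
  have h1 : ‖z‖ ≤ rad C θ := by
    rw [hpolar] at hz
    exact (mem_iff_le_rad hC θ (norm_nonneg _)).1 hz
  have h2 : ¬ ‖z‖ < rad C θ := by
    intro h
    apply hz'
    rw [hpolar]
    exact (mem_interior_iff_lt_rad hC θ (norm_nonneg _)).2 h
  have h3 : rad C θ = ‖z‖ := le_antisymm (not_lt.1 h2) h1
  unfold pt
  rw [h3]
  exact hpolar.symm

end Pool.Agent.H45.XR
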