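import Pool.Agent.H7.XR.A1

/-!
# Project XR, module A2: the angle function `Phi`
-/

set_option autoImplicit false

open MeasureTheory Set Filter Topology
open scoped Real ENNReal NNReal

namespace Pool.Agent.H45.XR

namespace A2

lemma e_inj {a b : ℝ} (h : e a = e b) (h1 : |a - b| < 2 * π) : a = b := by
  unfold e at h
  rw [Complex.exp_eq_exp_iff_exists_int] at h
  obtain ⟨n, hn⟩ := h
  have h2 : a = b + n * (2 * π) := by
    have h3 : ((a : ℂ) - (b + n * (2 * π))) * Complex.I = 0 := by
      linear_combination hn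
    have h4 := (mul_eq_zero.1 h3).resolve_right Complex.I_ne_zero
    have h5 : (a : ℂ) = ((b + n * (2 * π) : ℝ) : ℂ) := by
      push_cast
      linear_combination h4
    exact Complex.ofReal_injective h5
  have h3 : |(n : ℝ)| < 1 := by
    rw [h2, add_sub_cancel_left, abs_mul, abs_of_pos Real.two_pi_pos] at h1
    have := Real.two_pi_pos
    by_contra h4
    push Not at h4
    nlinarith
  have h4 : n = 0 := by
    have h5 : |n| < 1 := by exact_mod_cast h3
    exact Int.abs_lt_one_iff.1 h5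
  rw [h2, h4]
  simp

lemma polar_inj {r s a b : ℝ} (hr : 0 < r) (hs : 0 < s) (h : (r : ℂ) * e a = (s : ℂ) * e b)
    (h1 : |a - b| < 2 * π) : r = s ∧ a = b := by
  have h2 : r = s := by
    have h3 := congrArg norm h
    rw [norm_mul, norm_mul, norm_e, norm_e, Complex.norm_real, Complex.norm_real,
      Real.norm_of_nonneg hr.le, Real.norm_of_nonneg hs.le, mul_one, mul_one] at h3
    exact h3
  subst h2
  have h3 : (r : ℂ) ≠ 0 := Complex.ofReal_ne_zero.2 hr.ne'
  exact ⟨rfl, e_inj (mul_left_cancel₀ h3 h) h1⟩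

/-- the vector whose argument enters in `Phi` -/
noncomputable def zz (C : Set ℂ) (θ θ' : ℝ) : ℂ :=
  (rad C θ' : ℂ) - (rad C θ : ℂ) * e (-(θ' - θ))

lemma zz_re (C : Set ℂ) (θ θ' : ℝ) :
    (zz C θ θ').re = rad C θ' - rad C θ * Real.cos (θ' - θ) := by
  rw [zz, Complex.sub_re, Complex.mul_re, Complex.ofReal_re, Complex.ofReal_re, Complex.ofReal_im,
    e_re, Real.cos_neg]
  ring

lemma zz_im (C : Set ℂ) (θ θ' : ℝ) : (zz C θ θ').im = rad C θ * Real.sin (θ' - θ) := by
  rw [zz, Complex.sub_im, Complex.mul_im, Complex.ofReal_re, Complex.ofReal_im, Complex.ofReal_im,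
    e_im, Real.sin_neg]
  ring

lemma e_mul_zz (C : Set ℂ) (θ θ' : ℝ) : e θ' * zz C θ θ' = pt C θ' - pt C θ := by
  have h : e θ' * e (-(θ' - θ)) = e θ := by
    rw [← e_add]
    congr 1
    ring
  unfold zz pt
  linear_combination (-(rad C θ : ℂ)) * h

lemma Phi_zz (C : Set ℂ) (θ θ' : ℝ) : Phi C θ θ' = θ' + (zz C θ θ').arg := rfl

lemma zz_slit {C : Set ℂ} (hC : Body C) {θ θ' : ℝ} (h1 : θ < θ') (h2 : θ' < θ + 2 * π) :
    zz C θ θ' ∈ Complex.slitPlane := by
  rw [Complex.mem_slitPlane_iff]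
  by_cases h : Real.sin (θ' - θ) = 0
  · left
    have h3 : θ' - θ = π := by
      by_contra hne
      rcases lt_or_gt_of_ne hne with h4 | h4
      · exact (Real.sin_pos_of_pos_of_lt_pi (by linarith) h4).ne' h
      · have h5 : Real.sin (θ' - θ - π) = 0 := by rw [Real.sin_sub_pi, h, neg_zero]
        exact (Real.sin_pos_of_pos_of_lt_pi (by linarith) (by linarith)).ne' h5
    rw [zz_re, h3, Real.cos_pi]
    have := rad_pos hC θ
    have := rad_pos hC θ'
    linarith
  · right
    rw [zz_im]
    exact mul_ne_zero (rad_pos hC θ).ne' h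

lemma zz_ne {C : Set ℂ} (hC : Body C) {θ θ' : ℝ} (h1 : θ < θ') (h2 : θ' < θ + 2 * π) :
    zz C θ θ' ≠ 0 := Complex.slitPlane_ne_zero (zz_slit hC h1 h2)

lemma spec {C : Set ℂ} {θ θ' : ℝ} :
    pt C θ' = pt C θ + (‖zz C θ θ'‖ : ℂ) * e (Phi C θ θ') := by
  have h1 := e_mul_zz C θ θ'
  have h2 : (‖zz C θ θ'‖ : ℂ) * e ((zz C θ θ').arg) = zz C θ θ' :=
    Complex.norm_mul_exp_arg_mul_I _
  rw [Phi_zz, e_add]
  linear_combination -h1 - e θ' * h2

/-- `|z| sin (arg z + w) = r' sin w` -/
lemma norm_mul_sin (C : Set ℂ) (θ θ' : ℝ) :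
    ‖zz C θ θ'‖ * Real.sin ((zz C θ θ').arg + (θ' - θ)) = rad C θ' * Real.sin (θ' - θ) := by
  have h1 := Complex.norm_mul_cos_arg (zz C θ θ')
  have h2 := Complex.norm_mul_sin_arg (zz C θ θ')
  rw [zz_re] at h1
  rw [zz_im] at h2
  rw [Real.sin_add]
  linear_combination Real.sin (θ' - θ) * h1 + Real.cos (θ' - θ) * h2

end A2

open A2

theorem Phi_cont {C : Set ℂ} (hC : Body C) :
    ContinuousOn (fun q : ℝ × ℝ => Phi C q.1 q.2) {q | q.1 < q.2 ∧ q.2 < q.1 + 2 * π} := by
  obtain ⟨L, hL⟩ := rad_lipschitz hC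
  have hr : Continuous (rad C) := hL.continuous
  have hz : Continuous (fun q : ℝ × ℝ => zz C q.1 q.2) := by
    unfold zz
    have h1 : Continuous (fun q : ℝ × ℝ => e (-(q.2 - q.1))) := continuous_e.comp (by fun_prop)
    have h2 : Continuous (fun q : ℝ × ℝ => (rad C q.2 : ℂ)) :=
      Complex.continuous_ofReal.comp (hr.comp continuous_snd)
    have h3 : Continuous (fun q : ℝ × ℝ => (rad C q.1 : ℂ)) :=
      Complex.continuous_ofReal.comp (hr.comp continuous_fst)
    exact h2.sub (h3.mul h1)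
  intro q hq
  have h1 : ContinuousAt (fun q : ℝ × ℝ => (zz C q.1 q.2).arg) q :=
    ContinuousAt.comp (f := fun q : ℝ × ℝ => zz C q.1 q.2)
      (Complex.continuousAt_arg (zz_slit hC hq.1 hq.2)) hz.continuousAt
  exact (continuous_snd.continuousAt.add h1).continuousWithinAt

theorem Phi_spec {C : Set ℂ} (hC : Body C) {θ θ' : ℝ} (h1 : θ < θ') (h2 : θ' < θ + 2 * π) :
    ∃ s : ℝ, 0 < s ∧ pt C θ' = pt C θ + s * e (Phi C θ θ') :=
  ⟨‖zz C θ θ'‖, norm_pos_iff.2 (zz_ne hC h1 h2), spec⟩

theorem Phi_lt {C : Set ℂ} (hC : Body C) {θ θ' : ℝ} (h1 : θ < θ') (h2 : θ' < θ + π) :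
    θ' < Phi C θ θ' ∧ Phi C θ θ' < θ + π := by
  have hπ := Real.pi_pos
  have hs : 0 < Real.sin (θ' - θ) := Real.sin_pos_of_pos_of_lt_pi (by linarith) (by linarith)
  have him : 0 < (zz C θ θ').im := by
    rw [zz_im]
    exact mul_pos (rad_pos hC θ) hs
  have harg : 0 < (zz C θ θ').arg := by
    rcases (Complex.arg_nonneg_iff.2 him.le).eq_or_lt with h | h
    · exact absurd (Complex.arg_eq_zero_iff.1 h.symm).2 him.ne'
    · exact h
  have harg' : (zz C θ θ').arg < π := by
    rcases (Complex.arg_le_pi (zz C θ θ')).eq_or_lt with h | h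
    · exact absurd (Complex.arg_eq_pi_iff.1 h).2 him.ne'
    · exact h
  rw [Phi_zz]
  refine ⟨by linarith, ?_⟩
  have h3 := norm_mul_sin C θ θ'
  by_contra hcon
  push Not at hcon
  have h4 : Real.sin ((zz C θ θ').arg + (θ' - θ)) ≤ 0 := by
    have h5 : Real.sin ((zz C θ θ').arg + (θ' - θ) - π) =
        -Real.sin ((zz C θ θ').arg + (θ' - θ)) := Real.sin_sub_pi _
    have h6 : 0 ≤ Real.sin ((zz C θ θ').arg + (θ' - θ) - π) :=
      Real.sin_nonneg_of_nonneg_of_le_pi (by linarith) (by linarith)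
    linarith
  have h5 : 0 < rad C θ' * Real.sin (θ' - θ) := mul_pos (rad_pos hC θ') hs
  rw [← h3] at h5
  exact absurd (mul_nonpos_of_nonneg_of_nonpos (norm_nonneg _) h4) (not_le.2 h5)

theorem Phi_eq {C : Set ℂ} (hC : Body C) (θ : ℝ) : Phi C θ (θ + π) = θ + π := by
  have h1 : zz C θ (θ + π) = ((rad C (θ + π) + rad C θ : ℝ) : ℂ) := by
    apply Complex.ext
    · rw [zz_re, Complex.ofReal_re, add_sub_cancel_left, Real.cos_pi]
      ring
    · rw [zz_im, Complex.ofReal_im, add_sub_cancel_left, Real.sin_pi, mul_zero]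
  rw [Phi_zz, h1, Complex.arg_ofReal_of_nonneg, add_zero]
  exact (add_pos (rad_pos hC _) (rad_pos hC _)).le

theorem Phi_gt {C : Set ℂ} (hC : Body C) {θ θ' : ℝ} (h1 : θ + π < θ') (h2 : θ' < θ + 2 * π) :
    θ + π < Phi C θ θ' ∧ Phi C θ θ' < θ' := by
  have hπ := Real.pi_pos
  have hs : Real.sin (θ' - θ) < 0 := by
    have h3 : Real.sin (θ' - θ - π) = - Real.sin (θ' - θ) := Real.sin_sub_pi _
    have h4 : 0 < Real.sin (θ' - θ - π) := Real.sin_pos_of_pos_of_lt_pi (by linarith) (by linarith)
    linarith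
  have him : (zz C θ θ').im < 0 := by
    rw [zz_im]
    exact mul_neg_of_pos_of_neg (rad_pos hC θ) hs
  have harg : (zz C θ θ').arg < 0 := Complex.arg_neg_iff.2 him
  have harg' := Complex.neg_pi_lt_arg (zz C θ θ')
  rw [Phi_zz]
  refine ⟨?_, by linarith⟩
  have h3 := norm_mul_sin C θ θ'
  by_contra hcon
  push Not at hcon
  have h4 : 0 ≤ Real.sin ((zz C θ θ').arg + (θ' - θ)) :=
    Real.sin_nonneg_of_nonneg_of_le_pi (by linarith) (by linarith)
  have h5 : rad C θ' * Real.sin (θ' - θ) < 0 := mul_neg_of_pos_of_neg (rad_pos hC θ') hs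
  rw [← h3] at h5
  exact absurd (mul_nonneg (norm_nonneg _) h4) (not_le.2 h5)

namespace A2

lemma bounds {C : Set ℂ} (hC : Body C) {θ θ' : ℝ} (h1 : θ < θ') (h2 : θ' < θ + 2 * π) :
    min θ' (θ + π) ≤ Phi C θ θ' ∧ Phi C θ θ' ≤ max θ' (θ + π) := by
  rcases lt_trichotomy θ' (θ + π) with h | h | h
  · have := Phi_lt hC h1 h
    exact ⟨(min_le_left _ _).trans this.1.le, this.2.le.trans (le_max_right _ _)⟩
  · subst h
    rw [Phi_eq hC]
    simp
  · have := Phi_gt hC h h2
    exact ⟨(min_le_right _ _).trans this.1.le, this.2.le.trans (le_max_left _ _)⟩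

lemma pt_ne {C : Set ℂ} (hC : Body C) {a b : ℝ} (h : a < b) (h' : b < a + 2 * π) :
    pt C a ≠ pt C b := by
  intro heq
  have h1 : |a - b| < 2 * π := by
    rw [abs_sub_lt_iff]
    constructor <;> linarith [Real.pi_pos]
  have := (polar_inj (rad_pos hC a) (rad_pos hC b) heq h1).2
  linarith

/-- the segment from `pt a` to `pt c` crosses the ray of angle `b` inside `C` -/
lemma K_ineq {C : Set ℂ} (hC : Body C) {a b c : ℝ} (hab : a < b) (hbc : b < c)
    (hca : c ≤ a + π) :
    rad C a * rad C c * Real.sin (c - a) ≤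
      rad C b * (rad C a * Real.sin (b - a) + rad C c * Real.sin (c - b)) := by
  have ha := rad_pos hC a
  have hc := rad_pos hC c
  have hb := rad_pos hC b
  have s1 : 0 < Real.sin (b - a) := Real.sin_pos_of_pos_of_lt_pi (by linarith) (by linarith)
  have s2 : 0 < Real.sin (c - b) := Real.sin_pos_of_pos_of_lt_pi (by linarith) (by linarith)
  have s3 : 0 ≤ Real.sin (c - a) := Real.sin_nonneg_of_nonneg_of_le_pi (by linarith) (by linarith)
  set D := rad C a * Real.sin (b - a) + rad C c * Real.sin (c - b) with hD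
  have hDpos : 0 < D := by positivity
  have key : (Real.sin (c - b) : ℂ) * e a + (Real.sin (b - a) : ℂ) * e c =
      (Real.sin (c - a) : ℂ) * e b := by
    apply Complex.ext
    · simp only [Complex.add_re, Complex.re_ofReal_mul, e_re, Real.sin_sub]
      ring
    · simp only [Complex.add_im, Complex.im_ofReal_mul, e_im, Real.sin_sub]
      ring
  have hmem : ((rad C a * rad C c * Real.sin (c - a) / D : ℝ) : ℂ) * e b ∈ C := by
    have h1 := hC.conv (pt_mem hC a) (pt_mem hC c)
      (a := rad C c * Real.sin (c - b) / D) (b := rad C a * Real.sin (b - a) / D)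
      (by positivity) (by positivity) (by rw [← add_div, add_comm, ← hD, div_self hDpos.ne'])
    convert h1 using 1
    rw [Complex.real_smul, Complex.real_smul]
    unfold pt
    push_cast
    have hD' : (D : ℂ) ≠ 0 := Complex.ofReal_ne_zero.2 hDpos.ne'
    push_cast at key
    field_simp
    linear_combination (-(rad C a : ℂ) * rad C c) * key
  have h2 := (mem_iff_le_rad hC b (by positivity)).1 hmem
  rwa [div_le_iff₀ hDpos] at h2

/-- the three boundary points `pt a, pt b, pt c` are positively oriented -/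
lemma orient {C : Set ℂ} (hC : Body C) {a b c : ℝ} (hab : a < b) (hbc : b < c)
    (hca : c < a + 2 * π) :
    0 ≤ rad C a * rad C b * Real.sin (b - a) + rad C b * rad C c * Real.sin (c - b) +
      rad C c * rad C a * Real.sin (a - c) := by
  have ha := rad_pos hC a
  have hb := rad_pos hC b
  have hc := rad_pos hC c
  have e1 : Real.sin (a - c) = - Real.sin (c - a) := by
    rw [← Real.sin_neg]; congr 1; ring
  by_cases h1 : c ≤ a + π
  · have := K_ineq hC hab hbc h1
    rw [e1]
    nlinarith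
  push Not at h1
  have s3 : 0 ≤ Real.sin (a - c) := by
    rw [← Real.sin_add_two_pi]
    exact Real.sin_nonneg_of_nonneg_of_le_pi (by linarith) (by linarith)
  by_cases h2 : b ≤ a + π
  · by_cases h3 : c ≤ b + π
    · have s1 : 0 ≤ Real.sin (b - a) :=
        Real.sin_nonneg_of_nonneg_of_le_pi (by linarith) (by linarith)
      have s2 : 0 ≤ Real.sin (c - b) :=
        Real.sin_nonneg_of_nonneg_of_le_pi (by linarith) (by linarith)
      positivity
    · push Not at h3
      have h4 := K_ineq hC (a := c) (b := a + 2 * π) (c := b + 2 * π) (by linarith) (by linarith)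
        (by linarith)
      rw [rad_periodic, rad_periodic] at h4
      have e2 : Real.sin (b + 2 * π - c) = - Real.sin (c - b) := by
        rw [← Real.sin_neg, ← Real.sin_add_two_pi (-(c - b))]; congr 1; ring
      have e3 : Real.sin (a + 2 * π - c) = Real.sin (a - c) := by
        rw [← Real.sin_add_two_pi (a - c)]; congr 1; ring
      have e4 : Real.sin (b + 2 * π - (a + 2 * π)) = Real.sin (b - a) := by congr 1; ring
      rw [e2, e3, e4] at h4
      nlinarith
  · push Not at h2
    have h4 := K_ineq hC (a := b) (b := c) (c := a + 2 * π) (by linarith) (by linarith)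
      (by linarith)
    rw [rad_periodic] at h4
    have e2 : Real.sin (a + 2 * π - b) = - Real.sin (b - a) := by
      rw [← Real.sin_neg, ← Real.sin_add_two_pi (-(b - a))]; congr 1; ring
    have e3 : Real.sin (a + 2 * π - c) = Real.sin (a - c) := by
      rw [← Real.sin_add_two_pi (a - c)]; congr 1; ring
    rw [e2, e3] at h4
    nlinarith

/-- the orientation in terms of the angles seen from `pt θ` -/
lemma sin_Phi_nonneg {C : Set ℂ} (hC : Body C) {θ a b : ℝ} (h1 : θ < a) (hab : a < b)
    (h2 : b < θ + 2 * π) : 0 ≤ Real.sin (Phi C θ b - Phi C θ a) := by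
  obtain ⟨s, hs, hsa⟩ := Phi_spec hC h1 (hab.trans h2)
  obtain ⟨t, ht, htb⟩ := Phi_spec hC (h1.trans hab) h2
  have ho := orient hC h1 hab h2
  unfold pt at hsa htb
  have r1 := congrArg Complex.re hsa
  have i1 := congrArg Complex.im hsa
  have r2 := congrArg Complex.re htb
  have i2 := congrArg Complex.im htb
  simp only [Complex.add_re, Complex.add_im, Complex.re_ofReal_mul, Complex.im_ofReal_mul, e_re,
    e_im] at r1 i1 r2 i2
  have key : s * t * Real.sin (Phi C θ b - Phi C θ a) =
      rad C θ * rad C a * Real.sin (a - θ) + rad C a * rad C b * Real.sin (b - a) +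
      rad C b * rad C θ * Real.sin (θ - b) := by
    rw [Real.sin_sub, Real.sin_sub, Real.sin_sub, Real.sin_sub]
    have r1' : s * Real.cos (Phi C θ a) = rad C a * Real.cos a - rad C θ * Real.cos θ := by
      linarith
    have i1' : s * Real.sin (Phi C θ a) = rad C a * Real.sin a - rad C θ * Real.sin θ := by
      linarith
    have r2' : t * Real.cos (Phi C θ b) = rad C b * Real.cos b - rad C θ * Real.cos θ := by
      linarith
    have i2' : t * Real.sin (Phi C θ b) = rad C b * Real.sin b - rad C θ * Real.sin θ := by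
      linarith
    calc s * t * (Real.sin (Phi C θ b) * Real.cos (Phi C θ a) -
          Real.cos (Phi C θ b) * Real.sin (Phi C θ a))
        = (s * Real.cos (Phi C θ a)) * (t * Real.sin (Phi C θ b)) -
          (s * Real.sin (Phi C θ a)) * (t * Real.cos (Phi C θ b)) := by ring
      _ = _ := by rw [r1', i1', r2', i2']; ring
  rw [← key] at ho
  have hst : 0 < s * t := mul_pos hs ht
  by_contra hneg
  push Not at hneg
  exact absurd ho (not_le.2 (mul_neg_of_pos_of_neg hst hneg))

lemma mono_right {C : Set ℂ} (hC : Body C) {θ a b : ℝ} (h1 : θ < a) (hab : a ≤ b)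
    (h2 : b < θ + 2 * π) : Phi C θ a ≤ Phi C θ b := by
  rcases hab.eq_or_lt with rfl | hab
  · exact le_rfl
  have hπ := Real.pi_pos
  have hs := sin_Phi_nonneg hC h1 hab h2
  have ba := bounds hC h1 (hab.trans h2)
  have bb := bounds hC (h1.trans hab) h2
  have hlow : -π < Phi C θ b - Phi C θ a := by
    rcases le_total (θ + π) a with h | h
    · rw [max_eq_left h] at ba
      have h3 : θ + π ≤ Phi C θ b := by
        refine le_trans ?_ bb.1
        exact le_min (by linarith) le_rfl
      linarith [ba.2]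
    · rw [max_eq_right h] at ba
      have h3 : θ < Phi C θ b := by
        refine lt_of_lt_of_le ?_ bb.1
        exact lt_min (by linarith) (by linarith)
      linarith [ba.2]
  by_contra hneg
  push Not at hneg
  exact absurd hs (not_le.2 (Real.sin_neg_of_neg_of_neg_pi_lt (by linarith) hlow))

lemma mid_interior {C : Set ℂ} (hC : Body C) {φ s t : ℝ} {p z : ℂ} (hs : 0 < s) (ht : 0 < t)
    (h1 : p + s * e φ ∈ C) (h2 : p - t * e φ ∈ C) (hz : z ∈ interior C)
    (hzp : tc φ z = tc φ p) : p ∈ interior C := by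
  have hzeq := eq_add_of_tc_eq hzp
  set u := yc φ z - yc φ p with hu
  rcases lt_trichotomy u 0 with h | h | h
  · have h3 := hC.conv.combo_interior_self_mem_interior hz h1 (a := s / (s - u))
      (b := -u / (s - u)) (div_pos hs (by linarith)) (div_nonneg (by linarith) (by linarith))
      (by rw [← add_div, ← sub_eq_add_neg, div_self (by linarith)])
    convert h3 using 1
    rw [hzeq, Complex.real_smul, Complex.real_smul]
    have : ((s - u : ℝ) : ℂ) ≠ 0 := Complex.ofReal_ne_zero.2 (by linarith)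
    push_cast at this ⊢
    field_simp
    ring
  · rw [h] at hzeq
    rw [hzeq] at hz
    simpa using hz
  · have h3 := hC.conv.combo_interior_self_mem_interior hz h2 (a := t / (t + u))
      (b := u / (t + u)) (div_pos ht (by linarith)) (div_nonneg (by linarith) (by linarith))
      (by rw [← add_div, div_self (by linarith)])
    convert h3 using 1
    rw [hzeq, Complex.real_smul, Complex.real_smul]
    have : ((t + u : ℝ) : ℂ) ≠ 0 := Complex.ofReal_ne_zero.2 (by linarith)
    push_cast at this ⊢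
    field_simp
    ring

lemma strict_right {C : Set ℂ} (hC : Body C) {θ a b : ℝ} (h1 : θ < a) (hab : a < b)
    (h2 : b < θ + 2 * π) (hS : NoSeg C (Phi C θ a)) : Phi C θ a < Phi C θ b := by
  refine lt_of_le_of_ne (mono_right hC h1 hab.le h2) fun heq => ?_
  obtain ⟨s, hs, hsa⟩ := Phi_spec hC h1 (hab.trans h2)
  obtain ⟨t, ht, htb⟩ := Phi_spec hC (h1.trans hab) h2
  rw [← heq] at htb
  obtain ⟨z, hz, hzt⟩ := hS (pt C θ) (pt_mem hC θ) (pt C a) (pt_mem hC a)
    (pt_ne hC h1 (hab.trans h2)) (by rw [hsa, tc_add, tc_mul, tc_e_self]; ring)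
  rcases lt_trichotomy s t with h | h | h
  · apply pt_notMem_interior hC a
    refine mid_interior hC (φ := Phi C θ a) (s := t - s) (t := s) (z := z) (by linarith) hs ?_ ?_
      hz ?_
    · have : pt C a + ((t - s : ℝ) : ℂ) * e (Phi C θ a) = pt C b := by
        rw [hsa, htb]; push_cast; ring
      rw [this]
      exact pt_mem hC b
    · have : pt C a - (s : ℂ) * e (Phi C θ a) = pt C θ := by
        rw [hsa]; ring
      rw [this]
      exact pt_mem hC θ
    · rw [hzt, hsa, tc_add, tc_mul, tc_e_self]; ring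
  · subst h
    exact pt_ne hC hab (by linarith) (hsa.trans htb.symm)
  · apply pt_notMem_interior hC b
    refine mid_interior hC (φ := Phi C θ a) (s := s - t) (t := t) (z := z) (by linarith) ht ?_ ?_
      hz ?_
    · have : pt C b + ((s - t : ℝ) : ℂ) * e (Phi C θ a) = pt C a := by
        rw [hsa, htb]; push_cast; ring
      rw [this]
      exact pt_mem hC a
    · have : pt C b - (t : ℂ) * e (Phi C θ a) = pt C θ := by
        rw [htb]; ring
      rw [this]
      exact pt_mem hC θ
    · rw [hzt, htb, tc_add, tc_mul, tc_e_self]; ring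

end A2

theorem Phi_shift {C : Set ℂ} (hC : Body C) {θ θ' : ℝ} (h1 : θ < θ') (h2 : θ' < θ + 2 * π) :
    Phi C θ' (θ + 2 * π) = Phi C θ θ' + π := by
  have hπ := Real.pi_pos
  obtain ⟨s, hs, hsa⟩ := Phi_spec hC h1 h2
  obtain ⟨t, ht, htb⟩ := Phi_spec hC h2 (by linarith)
  rw [pt_periodic] at htb
  have b1 := bounds hC h1 h2
  have b2 := bounds hC h2 (by linarith)
  refine (polar_inj ht hs (a := Phi C θ' (θ + 2 * π)) (b := Phi C θ θ' + π) ?_ ?_).2
  · rw [e_add_pi]
    linear_combination (-1 : ℂ) * hsa - htb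
  · rcases le_total θ' (θ + π) with h | h
    · rw [min_eq_left h, max_eq_right h] at b1
      rw [min_eq_right (by linarith), max_eq_left (by linarith)] at b2
      rw [abs_sub_lt_iff]
      constructor <;> linarith [b1.1, b1.2, b2.1, b2.2]
    · rw [min_eq_right h, max_eq_left h] at b1
      rw [min_eq_left (by linarith), max_eq_right (by linarith)] at b2
      rw [abs_sub_lt_iff]
      constructor <;> linarith [b1.1, b1.2, b2.1, b2.2]

namespace A2

lemma mono_left {C : Set ℂ} (hC : Body C) {θ a b : ℝ} (h1 : θ - 2 * π < a) (hab : a ≤ b)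
    (h2 : b < θ) : Phi C a θ ≤ Phi C b θ := by
  have s1 := Phi_shift hC (θ := a) (θ' := θ) (by linarith) (by linarith)
  have s2 := Phi_shift hC (θ := b) (θ' := θ) (by linarith) (by linarith)
  have := mono_right hC (θ := θ) (a := a + 2 * π) (b := b + 2 * π) (by linarith) (by linarith)
    (by linarith)
  linarith

lemma noSeg_add_pi {C : Set ℂ} {φ : ℝ} (h : NoSeg C φ) : NoSeg C (φ + π) := by
  have ht : ∀ z, tc (φ + π) z = - tc φ z := by
    intro z
    unfold tc
    rw [Real.cos_add_pi, Real.sin_add_pi]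
    ring
  intro p hp q hq hpq heq
  rw [ht, ht] at heq
  obtain ⟨z, hz, hz'⟩ := h p hp q hq hpq (by linarith)
  exact ⟨z, hz, by rw [ht, ht, hz']⟩

lemma strict_left {C : Set ℂ} (hC : Body C) {θ a b : ℝ} (h1 : θ - 2 * π < a) (hab : a < b)
    (h2 : b < θ) (hS : NoSeg C (Phi C a θ)) : Phi C a θ < Phi C b θ := by
  have s1 := Phi_shift hC (θ := a) (θ' := θ) (by linarith) (by linarith)
  have s2 := Phi_shift hC (θ := b) (θ' := θ) (by linarith) (by linarith)
  have := strict_right hC (θ := θ) (a := a + 2 * π) (b := b + 2 * π) (by linarith) (by linarith)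
    (by linarith) (by rw [s1]; exact noSeg_add_pi hS)
  linarith

end A2

theorem Phi_mono {C : Set ℂ} (hC : Body C) {a b a' b' : ℝ} (h1 : a < b) (h2 : b < a + 2 * π)
    (h1' : a' < b') (h2' : b' < a' + 2 * π) (ha : a ≤ a') (hb : b ≤ b') :
    Phi C a b ≤ Phi C a' b' := by
  have hπ := Real.pi_pos
  by_cases c1 : b' < a + 2 * π
  · exact (mono_right hC h1 hb c1).trans (mono_left hC (by linarith) ha h1')
  push Not at c1
  by_cases c2 : a' < b
  · exact (mono_left hC (by linarith) ha c2).trans (mono_right hC c2 hb h2')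
  push Not at c2
  by_cases c3 : b' < b + 2 * π
  · have s1 := Phi_shift hC h1 h2
    have m1 := mono_right hC (θ := b) (a := a + 2 * π) (b := b') h2 c1 c3
    have m2 := mono_left hC (θ := b') (a := b) (b := a') (by linarith) c2 h1'
    linarith
  push Not at c3
  have b1 := (bounds hC h1 h2).2
  have b2 := (bounds hC h1' h2').1
  have h3 : max b (a + π) ≤ b + π := max_le (by linarith) (by linarith)
  have h4 : b + π ≤ min b' (a' + π) := le_min (by linarith) (by linarith)
  linarith

theorem Phi_strict {C : Set ℂ} (hC : Body C) {a b a' b' : ℝ} (h1 : a < b) (h2 : b < a + 2 * π)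
    (h1' : a' < b') (h2' : b' < a' + 2 * π) (ha : a ≤ a') (hb : b ≤ b')
    (hne : a < a' ∨ b < b') (hS : NoSeg C (Phi C a b)) :
    Phi C a b < Phi C a' b' := by
  have hπ := Real.pi_pos
  by_cases c1 : b' < a + 2 * π
  · rcases hb.eq_or_lt with rfl | hb
    · have ha' : a < a' := hne.resolve_right (lt_irrefl _)
      exact strict_left hC (by linarith) ha' h1' hS
    · exact (strict_right hC h1 hb c1 hS).trans_le (mono_left hC (by linarith) ha h1')
  push Not at c1
  by_cases c2 : a' < b
  · have ha' : a < a' := by linarith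
    exact (strict_left hC (by linarith) ha' c2 hS).trans_le (mono_right hC c2 hb h2')
  push Not at c2
  by_cases c3 : b' < b + 2 * π
  · have s1 := Phi_shift hC h1 h2
    have m1 := mono_right hC (θ := b) (a := a + 2 * π) (b := b') h2 c1 c3
    have m2 := mono_left hC (θ := b') (a := b) (b := a') (by linarith) c2 h1'
    linarith
  push Not at c3
  have b1 := (bounds hC h1 h2).2
  have b2 := (bounds hC h1' h2').1
  have h3 : max b (a + π) < b + π := max_lt (by linarith) (by linarith)
  have h4 : b + π ≤ min b' (a' + π) := le_min (by linarith) (by linarith)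
  linarith

namespace A2

lemma norm_sq_diff (s t α β : ℝ) :
    ‖(t : ℂ) * e β - (s : ℂ) * e α‖ ^ 2 = (t - s) ^ 2 + 4 * (s * t) * Real.sin ((β - α) / 2) ^ 2 := by
  have h1 : Real.cos (β - α) = 1 - 2 * Real.sin ((β - α) / 2) ^ 2 := by
    have h2 := Real.cos_two_mul ((β - α) / 2)
    have h3 := Real.sin_sq_add_cos_sq ((β - α) / 2)
    have h4 : 2 * ((β - α) / 2) = β - α := by ring
    rw [h4] at h2
    linarith
  rw [← Complex.normSq_eq_norm_sq, Complex.normSq_apply]
  simp only [Complex.sub_re, Complex.sub_im, Complex.re_ofReal_mul, Complex.im_ofReal_mul, e_re,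
    e_im]
  rw [Real.cos_sub] at h1
  have hα := Real.sin_sq_add_cos_sq α
  have hβ := Real.sin_sq_add_cos_sq β
  linear_combination (s ^ 2) * hα + (t ^ 2) * hβ - 2 * s * t * h1

lemma rad_ge {C : Set ℂ} (hC : Body C) : ∃ r : ℝ, 0 < r ∧ ∀ θ, r ≤ rad C θ := by
  obtain ⟨r, hr, hball⟩ := Metric.mem_nhds_iff.1 hC.nhds
  refine ⟨r / 2, by positivity, fun θ => (mem_iff_le_rad hC θ (by positivity)).1 (hball ?_)⟩
  rw [Metric.mem_ball, dist_zero_right, norm_mul, norm_e, mul_one, Complex.norm_real,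
    Real.norm_of_nonneg (by positivity)]
  linarith

/-- separated boundary points have distance bounded below -/
lemma dist_ge {C : Set ℂ} (hC : Body C) {κ : ℝ} (hκ : 0 < κ) (hκ' : κ ≤ π) :
    ∃ k : ℝ, 0 < k ∧ ∀ θ a, θ + κ ≤ a → a ≤ θ + 2 * π - κ → k ≤ ‖zz C θ a‖ := by
  obtain ⟨r, hr, hrad⟩ := rad_ge hC
  have hs : 0 < Real.sin (κ / 2) := Real.sin_pos_of_pos_of_lt_pi (by linarith) (by linarith)
  refine ⟨2 * r * Real.sin (κ / 2), by positivity, fun θ a h1 h2 => ?_⟩
  have h3 : ‖zz C θ a‖ = ‖(rad C a : ℂ) * e a - (rad C θ : ℂ) * e θ‖ := by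
    have h4 := e_mul_zz C θ a
    have h5 := congrArg norm h4
    rw [norm_mul, norm_e, one_mul] at h5
    rw [h5]
    rfl
  have h4 := norm_sq_diff (rad C θ) (rad C a) θ a
  rw [← h3] at h4
  have h5 : Real.sin (κ / 2) ≤ Real.sin ((a - θ) / 2) := by
    rcases le_total ((a - θ) / 2) (π / 2) with h | h
    · exact Real.sin_le_sin_of_le_of_le_pi_div_two (by linarith) h (by linarith)
    · rw [← Real.sin_pi_sub ((a - θ) / 2)]
      exact Real.sin_le_sin_of_le_of_le_pi_div_two (by linarith) (by linarith) (by linarith)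
  have h6 := hrad θ
  have h7 := hrad a
  have h8 : r * r ≤ rad C θ * rad C a := mul_le_mul h6 h7 hr.le (by linarith)
  have h9 : Real.sin (κ / 2) ^ 2 ≤ Real.sin ((a - θ) / 2) ^ 2 := pow_le_pow_left₀ hs.le h5 2
  have h10 : (r * r) * Real.sin (κ / 2) ^ 2 ≤
      (rad C θ * rad C a) * Real.sin ((a - θ) / 2) ^ 2 :=
    mul_le_mul h8 h9 (by positivity) (by nlinarith)
  refine le_of_sq_le_sq ?_ (norm_nonneg _)
  nlinarith [sq_nonneg (rad C a - rad C θ)]

end A2

theorem Phi_lip {C : Set ℂ} (hC : Body C) {κ : ℝ} (hκ : 0 < κ) :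
    ∃ L : ℝ, 0 ≤ L ∧ (∀ θ a b, θ + κ ≤ a → a ≤ b → b ≤ θ + 2 * π - κ →
      Phi C θ b ≤ Phi C θ a + L * (b - a)) ∧
    (∀ θ a b, θ - 2 * π + κ ≤ a → a ≤ b → b ≤ θ - κ →
      Phi C b θ ≤ Phi C a θ + L * (b - a)) := by
  have hπ := Real.pi_pos
  by_cases hκ' : κ ≤ π
  swap
  · push Not at hκ'
    exact ⟨0, le_rfl, fun θ a b h1 h2 h3 => by linarith, fun θ a b h1 h2 h3 => by linarith⟩
  obtain ⟨k, hk, hdist⟩ := dist_ge hC hκ hκ'
  obtain ⟨K, hK⟩ := pt_lipschitz hC
  have main : ∀ θ a b, θ + κ ≤ a → a ≤ b → b ≤ θ + 2 * π - κ →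
      Phi C θ b ≤ Phi C θ a + (π / (2 * k) * K) * (b - a) := by
    intro θ a b h1 hab h2
    rcases hab.eq_or_lt with rfl | hab'
    · simp
    have hmono := mono_right hC (θ := θ) (a := a) (b := b) (by linarith) hab (by linarith)
    have hsin := sin_Phi_nonneg hC (θ := θ) (a := a) (b := b) (by linarith) hab' (by linarith)
    have ba := (bounds hC (θ := θ) (θ' := a) (by linarith) (by linarith)).1
    have bb := (bounds hC (θ := θ) (θ' := b) (by linarith) (by linarith)).2
    have hδ2 : Phi C θ b - Phi C θ a < 2 * π := by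
      have h3 : max b (θ + π) < θ + 2 * π := max_lt (by linarith) (by linarith)
      have h4 : θ < min a (θ + π) := lt_min (by linarith) (by linarith)
      linarith
    have hδ : Phi C θ b - Phi C θ a ≤ π := by
      by_contra hcon
      push Not at hcon
      have h5 : Real.sin (Phi C θ b - Phi C θ a - 2 * π) = Real.sin (Phi C θ b - Phi C θ a) :=
        Real.sin_sub_two_pi _
      have h6 : Real.sin (Phi C θ b - Phi C θ a - 2 * π) < 0 :=
        Real.sin_neg_of_neg_of_neg_pi_lt (by linarith) (by linarith)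
      linarith
    have n1 := hdist θ a h1 (by linarith)
    have n2 := hdist θ b (by linarith) h2
    have hd : pt C b - pt C a = (‖zz C θ b‖ : ℂ) * e (Phi C θ b) -
        (‖zz C θ a‖ : ℂ) * e (Phi C θ a) := by
      have h3 := @spec C θ a
      have h4 := @spec C θ b
      linear_combination h4 - h3
    have hsq := norm_sq_diff ‖zz C θ a‖ ‖zz C θ b‖ (Phi C θ a) (Phi C θ b)
    rw [← hd] at hsq
    have hj : 2 / π * ((Phi C θ b - Phi C θ a) / 2) ≤
        Real.sin ((Phi C θ b - Phi C θ a) / 2) :=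
      Real.mul_le_sin (by linarith) (by linarith)
    have hlow : 2 * k / π * (Phi C θ b - Phi C θ a) ≤ ‖pt C b - pt C a‖ := by
      refine le_of_sq_le_sq ?_ (norm_nonneg _)
      have h5 : 0 ≤ 2 / π * ((Phi C θ b - Phi C θ a) / 2) := by
        have : 0 ≤ Phi C θ b - Phi C θ a := by linarith
        positivity
      have h6 : (2 / π * ((Phi C θ b - Phi C θ a) / 2)) ^ 2 ≤
          Real.sin ((Phi C θ b - Phi C θ a) / 2) ^ 2 := pow_le_pow_left₀ h5 hj 2
      have h7 : k * k ≤ ‖zz C θ a‖ * ‖zz C θ b‖ := mul_le_mul n1 n2 hk.le (norm_nonneg _)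
      have h8 : (k * k) * (2 / π * ((Phi C θ b - Phi C θ a) / 2)) ^ 2 ≤
          (‖zz C θ a‖ * ‖zz C θ b‖) * Real.sin ((Phi C θ b - Phi C θ a) / 2) ^ 2 :=
        mul_le_mul h7 h6 (by positivity) (by positivity)
      have h9 : (2 * k / π * (Phi C θ b - Phi C θ a)) ^ 2 =
          4 * ((k * k) * (2 / π * ((Phi C θ b - Phi C θ a) / 2)) ^ 2) := by ring
      rw [hsq, h9]
      nlinarith [sq_nonneg (‖zz C θ b‖ - ‖zz C θ a‖)]
    have hup : ‖pt C b - pt C a‖ ≤ K * (b - a) := by
      have := hK.dist_le_mul b a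
      rwa [dist_eq_norm, Real.dist_eq, abs_of_pos (by linarith)] at this
    have h10 : 2 * k / π * (Phi C θ b - Phi C θ a) ≤ K * (b - a) := hlow.trans hup
    have h11 : Phi C θ b - Phi C θ a ≤ π / (2 * k) * (K * (b - a)) := by
      have h12 := mul_le_mul_of_nonneg_left h10 (show 0 ≤ π / (2 * k) by positivity)
      have h13 : π / (2 * k) * (2 * k / π * (Phi C θ b - Phi C θ a)) =
          Phi C θ b - Phi C θ a := by
        field_simp
      rwa [h13] at h12
    linarith
  refine ⟨π / (2 * k) * K, by positivity, main, fun θ a b h1 h2 h3 => ?_⟩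
  have s1 := Phi_shift hC (θ := a) (θ' := θ) (by linarith) (by linarith)
  have s2 := Phi_shift hC (θ := b) (θ' := θ) (by linarith) (by linarith)
  have h4 := main θ (a + 2 * π) (b + 2 * π) (by linarith) (by linarith) (by linarith)
  have h5 : b + 2 * π - (a + 2 * π) = b - a := by ring
  rw [s1, s2, h5] at h4
  linarith

end Pool.Agent.H45.XR
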